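import Pool.Agent.N718.DC.Stm

/-!
# Prime values of two linear forms in two variables (project DC, part PAIR)
-/

set_option autoImplicit false
set_option linter.all false

namespace Pool.Agent.N707.DC

open Finset Pool.Agent.N718.DC

theorem div_nn (X A : ℕ) : 0 ≤ (X:ℝ) / Real.log X ^ A := by
  have := Real.log_natCast_nonneg X
  positivity

/-- convex sets of integers -/
def Cv (K : Finset ℤ) : Prop := ∀ a ∈ K, ∀ b ∈ K, ∀ k, a ≤ k → k ≤ b → k ∈ K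

theorem Cv.eq {K : Finset ℤ} (h : Cv K) (hne : K.Nonempty) :
    K = Icc (K.min' hne) (K.max' hne) := by
  ext k
  rw [mem_Icc]
  exact ⟨fun hk => ⟨K.min'_le k hk, K.le_max' k hk⟩,
    fun hk => h _ (K.min'_mem hne) _ (K.max'_mem hne) k hk.1 hk.2⟩

theorem refl_sum (k₁ k₂ : ℤ) (f : ℤ → ℝ) :
    ∑ k ∈ Icc k₁ k₂, f k = ∑ k ∈ Icc (-k₂) (-k₁), f (-k) := by
  refine Finset.sum_bij' (fun k _ => -k) (fun k _ => -k) ?_ ?_ ?_ ?_ ?_
  · intro k hk
    rw [mem_Icc] at hk ⊢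
    omega
  · intro k hk
    rw [mem_Icc] at hk ⊢
    omega
  · intro k _
    exact neg_neg k
  · intro k _
    exact neg_neg k
  · intro k _
    rw [neg_neg]

/-- the weight of the coprime positive integers -/
noncomputable def cp (Q : ℕ) (n : ℤ) : ℝ := open Classical in if IsCoprime n (Q : ℤ) then pos n else 0

/-- the estimate in progressions with the modulus `Q` -/
def LN (X Q : ℕ) (E : ℝ) : Prop := ∀ M : ℤ, M.natAbs = Q → ∀ (c : ℤ) (K : Finset ℤ), Cv K →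
  (∀ k ∈ K, |c + M * k| ≤ X) → |∑ k ∈ K, lam (c + M * k) - rt Q * ∑ k ∈ K, cp Q (c + M * k)| ≤ E

theorem cop_add (Q : ℕ) (M c k : ℤ) (hM : M.natAbs = Q) :
    IsCoprime (c + M * k) (Q : ℤ) ↔ IsCoprime c (Q : ℤ) := by
  rw [← hM]
  rcases Int.natAbs_eq M with h | h
  · rw [← h]
    exact IsCoprime.add_mul_left_left_iff
  · have h2 : ((M.natAbs : ℕ) : ℤ) = -M := by omega
    rw [h2, IsCoprime.neg_right_iff, IsCoprime.neg_right_iff]
    exact IsCoprime.add_mul_left_left_iff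

theorem linz (h : S_LIN) (κ A : ℕ) : ∃ X₀ : ℕ, ∀ X : ℕ, X₀ ≤ X → ∀ Q : ℕ, 1 ≤ Q →
    (Q : ℝ) ≤ Real.log X ^ κ → LN X Q (X / Real.log X ^ A) := by
  classical
  obtain ⟨X₀, h0⟩ := h κ A
  refine ⟨X₀, fun X hX Q hQ hQ' M hM c K hK hc => ?_⟩
  have e0 : ∑ k ∈ K, cp Q (c + M * k) =
      if IsCoprime c (Q : ℤ) then ∑ k ∈ K, pos (c + M * k) else 0 := by
    split_ifs with hcop
    · refine Finset.sum_congr rfl fun k _ => ?_
      unfold cp
      rw [if_pos ((cop_add Q M c k hM).2 hcop)]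
    · refine Finset.sum_eq_zero fun k _ => ?_
      unfold cp
      rw [if_neg fun h' => hcop ((cop_add Q M c k hM).1 h')]
  rw [e0]
  rcases K.eq_empty_or_nonempty with rfl | hne
  · simp
    exact div_nn X A
  rw [hK.eq hne] at hc ⊢
  set k₁ := K.min' hne
  set k₂ := K.max' hne
  rcases Int.natAbs_eq M with h1 | h1
  · rw [hM] at h1
    rw [h1] at hc ⊢
    have := h0 X hX Q hQ hQ' c k₁ k₂ hc
    convert this using 5
  · rw [hM] at h1
    rw [refl_sum k₁ k₂ (fun k => lam (c + M * k)), refl_sum k₁ k₂ (fun k => pos (c + M * k))]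
    have e1 : ∀ k : ℤ, c + M * -k = c + Q * k := by
      intro k
      rw [h1]
      ring
    simp_rw [e1]
    have := h0 X hX Q hQ hQ' c (-k₂) (-k₁) (fun k hk => by
      rw [mem_Icc] at hk
      have h2 := hc (-k) (mem_Icc.2 ⟨by omega, by omega⟩)
      rwa [e1] at h2)
    convert this using 5

section fib

variable {ι : Type} [DecidableEq ι] (B : Finset (ℤ × ℤ)) (I : Finset ι) (φ : ℤ × ℤ → ι)
  (κ : ℤ × ℤ → ℤ) (P : ι → ℤ → ℤ × ℤ)

/-- the parameters of the points of a fibre -/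
def KK (i : ι) : Finset ℤ := (B.filter fun b => φ b = i).image κ

theorem mem_KK (h1 : ∀ b, P (φ b) (κ b) = b) (h2 : ∀ i ∈ I, ∀ k, φ (P i k) = i ∧ κ (P i k) = k)
    {i : ι} (hi : i ∈ I) (k : ℤ) : k ∈ KK B φ κ i ↔ P i k ∈ B := by
  unfold KK
  rw [mem_image]
  constructor
  · rintro ⟨b, hb, rfl⟩
    rw [mem_filter] at hb
    rw [← hb.2, h1]
    exact hb.1
  · intro h
    exact ⟨P i k, mem_filter.2 ⟨h, (h2 i hi k).1⟩, (h2 i hi k).2⟩

theorem fib (h1 : ∀ b, P (φ b) (κ b) = b) (hI : ∀ b ∈ B, φ b ∈ I) (F : ℤ × ℤ → ℝ) :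
    ∑ b ∈ B, F b = ∑ i ∈ I, ∑ k ∈ KK B φ κ i, F (P i k) := by
  rw [← Finset.sum_fiberwise_of_maps_to hI]
  refine Finset.sum_congr rfl fun i _ => ?_
  unfold KK
  rw [Finset.sum_image]
  · refine Finset.sum_congr rfl fun b hb => ?_
    rw [mem_filter] at hb
    rw [← hb.2, h1]
  · intro b hb b' hb' he
    have hb2 := (mem_filter.1 hb).2
    have hb3 := (mem_filter.1 hb').2
    rw [← h1 b, ← h1 b', hb2, hb3, he]

end fib

theorem aff_lo {u p e a b k : ℤ} (h1 : u ≤ p + e * a) (h2 : u ≤ p + e * b) (ha : a ≤ k)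
    (hb : k ≤ b) : u ≤ p + e * k := by
  rcases le_total 0 e with he | he
  · have := mul_le_mul_of_nonneg_left ha he
    linarith
  · have := mul_le_mul_of_nonpos_left hb he
    linarith

theorem aff_hi {v p e a b k : ℤ} (h1 : p + e * a ≤ v) (h2 : p + e * b ≤ v) (ha : a ≤ k)
    (hb : k ≤ b) : p + e * k ≤ v := by
  rcases le_total 0 e with he | he
  · have := mul_le_mul_of_nonneg_left hb he
    linarith
  · have := mul_le_mul_of_nonpos_left ha he
    linarith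

theorem cv_box (u v p e : ℤ × ℤ) (K : Finset ℤ)
    (hK : ∀ k, k ∈ K ↔ (p.1 + e.1 * k, p.2 + e.2 * k) ∈ bx u v) : Cv K := by
  intro a ha b hb k hak hkb
  rw [hK] at ha hb ⊢
  unfold bx at ha hb ⊢
  rw [mem_product, mem_Icc, mem_Icc] at ha hb ⊢
  exact ⟨⟨aff_lo ha.1.1 hb.1.1 hak hkb, aff_hi ha.1.2 hb.1.2 hak hkb⟩,
    ⟨aff_lo ha.2.1 hb.2.1 hak hkb, aff_hi ha.2.2 hb.2.2 hak hkb⟩⟩

theorem lam_nonneg (n : ℤ) : 0 ≤ lam n := by
  unfold lam
  split_ifs with h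
  · have : (1:ℝ) ≤ n := by exact_mod_cast h.1
    exact Real.log_nonneg this
  · exact le_rfl

theorem lam_le {n : ℤ} {X : ℕ} (h : |n| ≤ X) : lam n ≤ Real.log X := by
  unfold lam
  split_ifs with h1
  · have h2 : n ≤ X := (le_abs_self n).trans h
    apply Real.log_le_log (by exact_mod_cast h1.1)
    exact_mod_cast h2
  · exact Real.log_natCast_nonneg X

/-- first step -/
theorem step1 {X Q : ℕ} {E : ℝ} (hLN : LN X Q E) (hE : 0 ≤ E) (s : ℤ) (hs : s = 1 ∨ s = -1)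
    (L q : ℕ) (hq : 1 ≤ q) (y y' r r' : ℤ) (hQ : L * q * (y - y').natAbs = Q) (u v : ℤ × ℤ)
    (hG : ∀ b ∈ bx u v, |G s L q y r b| ≤ X) (hG' : ∀ b ∈ bx u v, |G s L q y' r' b| ≤ X)
    (I : Finset (ℤ × ℤ)) (hI1 : ∀ i ∈ I, 0 ≤ i.2 ∧ i.2 < q)
    (hI2 : ∀ b ∈ bx u v, (b.1 + y * (b.2 / q), b.2 % q) ∈ I) :
    |∑ b ∈ bx u v, lam (G s L q y r b) * lam (G s L q y' r' b) -
      rt Q * ∑ b ∈ bx u v, lam (G s L q y r b) * cp Q (G s L q y' r' b)| ≤
      I.card * (Real.log X * E) := by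
  classical
  have hq0 : (q : ℤ) ≠ 0 := by omega
  set φ : ℤ × ℤ → ℤ × ℤ := fun b => (b.1 + y * (b.2 / q), b.2 % q) with hφ
  set κ : ℤ × ℤ → ℤ := fun b => b.2 / q with hκ
  set P : ℤ × ℤ → ℤ → ℤ × ℤ := fun i k => (i.1 + (-y) * k, i.2 + q * k) with hP
  have h1 : ∀ b, P (φ b) (κ b) = b := by
    intro b
    simp only [hφ, hκ, hP]
    refine Prod.ext ?_ ?_
    · simp only
      ring
    · simp only
      exact Int.emod_add_mul_ediv b.2 q
  have h2 : ∀ i ∈ I, ∀ k, φ (P i k) = i ∧ κ (P i k) = k := by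
    intro i hi k
    obtain ⟨h3, h4⟩ := hI1 i hi
    have h5 : (i.2 + q * k) / (q : ℤ) = k := by
      rw [Int.add_mul_ediv_left _ _ hq0, Int.ediv_eq_zero_of_lt h3 h4, zero_add]
    have h6 : (i.2 + q * k) % (q : ℤ) = i.2 := by
      rw [Int.add_mul_emod_self_left, Int.emod_eq_of_lt h3 h4]
    simp only [hφ, hκ, hP]
    rw [h5, h6]
    refine ⟨Prod.ext ?_ rfl, rfl⟩
    simp only
    ring
  set M : ℤ := s * (L * q * (y' - y)) with hM
  have hMQ : M.natAbs = Q := by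
    rw [← hQ, hM, Int.natAbs_mul, Int.natAbs_mul, Int.natAbs_mul, Int.natAbs_natCast,
      Int.natAbs_natCast]
    have : s.natAbs = 1 := by rcases hs with rfl | rfl <;> rfl
    rw [this, one_mul]
    congr 1
    omega
  rw [fib (bx u v) I φ κ P h1 hI2, fib (bx u v) I φ κ P h1 hI2, Finset.mul_sum,
    ← Finset.sum_sub_distrib]
  refine (Finset.abs_sum_le_sum_abs _ _).trans ?_
  rw [← nsmul_eq_mul, ← Finset.sum_const]
  refine Finset.sum_le_sum fun i hi => ?_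
  have hmem := mem_KK (bx u v) I φ κ P h1 h2 hi
  set K := KK (bx u v) φ κ i with hK
  set g : ℤ := s * (L * (q * i.1 + y * i.2) + r) with hg
  set c : ℤ := s * (L * (q * i.1 + y' * i.2) + r') with hc
  have e1 : ∀ k, G s L q y r (P i k) = g := by
    intro k
    simp only [G, hP, hg]
    ring
  have e2 : ∀ k, G s L q y' r' (P i k) = c + M * k := by
    intro k
    simp only [G, hP, hc, hM]
    ring
  simp_rw [e1, e2]
  rcases K.eq_empty_or_nonempty with hKe | hne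
  · rw [hKe]
    simp
    have := Real.log_natCast_nonneg X
    positivity
  · obtain ⟨k, hk⟩ := hne
    have h3 := hG _ ((hmem k).1 hk)
    rw [e1] at h3
    have h4 := hLN M hMQ c K (cv_box u v i (-y, q) K hmem) (fun k hk => by
      have := hG' _ ((hmem k).1 hk)
      rwa [e2] at this)
    rw [← Finset.mul_sum, ← Finset.mul_sum]
    have e3 : lam g * ∑ k ∈ K, lam (c + M * k) - rt Q * (lam g * ∑ k ∈ K, cp Q (c + M * k)) =
        lam g * (∑ k ∈ K, lam (c + M * k) - rt Q * ∑ k ∈ K, cp Q (c + M * k)) := by ring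
    rw [e3, abs_mul, abs_of_nonneg (lam_nonneg g)]
    exact mul_le_mul (lam_le h3) h4 (abs_nonneg _) (Real.log_natCast_nonneg X)

open Classical in
/-- second step -/
theorem step2 {X Q : ℕ} {E : ℝ} (hLN : LN X Q E) (hE : 0 ≤ E) (s : ℤ) (hs : s = 1 ∨ s = -1)
    (L q : ℕ) (y y' r r' : ℤ) (hy : y ≠ y') (hQ : L * q * (y - y').natAbs = Q) (u v : ℤ × ℤ)
    (hG : ∀ b ∈ bx u v, |G s L q y r b| ≤ X)
    (I : Finset (ℤ × ℤ)) (hI1 : ∀ i ∈ I, 0 ≤ i.1 ∧ i.1 < (y - y').natAbs)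
    (hI2 : ∀ b ∈ bx u v, (b.1 % (y - y').natAbs, b.2) ∈ I) :
    |∑ b ∈ bx u v, lam (G s L q y r b) * cp Q (G s L q y' r' b) -
      rt Q * ∑ b ∈ bx u v, (if IsCoprime (G s L q y r b * G s L q y' r' b) (Q : ℤ) then
        pos (G s L q y r b) * pos (G s L q y' r' b) else 0)| ≤ I.card * E := by
  set D : ℕ := (y - y').natAbs with hD
  have hD0 : (D : ℤ) ≠ 0 := by omega
  set φ : ℤ × ℤ → ℤ × ℤ := fun b => (b.1 % D, b.2) with hφ
  set κ : ℤ × ℤ → ℤ := fun b => b.1 / D with hκ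
  set P : ℤ × ℤ → ℤ → ℤ × ℤ := fun i k => (i.1 + D * k, i.2 + 0 * k) with hP
  have h1 : ∀ b, P (φ b) (κ b) = b := by
    intro b
    simp only [hφ, hκ, hP]
    refine Prod.ext ?_ ?_
    · simp only
      exact Int.emod_add_mul_ediv b.1 D
    · simp only
      ring
  have h2 : ∀ i ∈ I, ∀ k, φ (P i k) = i ∧ κ (P i k) = k := by
    intro i hi k
    obtain ⟨h3, h4⟩ := hI1 i hi
    have h5 : (i.1 + D * k) / (D : ℤ) = k := by
      rw [Int.add_mul_ediv_left _ _ hD0, Int.ediv_eq_zero_of_lt h3 h4, zero_add]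
    have h6 : (i.1 + D * k) % (D : ℤ) = i.1 := by
      rw [Int.add_mul_emod_self_left, Int.emod_eq_of_lt h3 h4]
    simp only [hφ, hκ, hP]
    rw [h5, h6]
    refine ⟨Prod.ext rfl ?_, rfl⟩
    simp only
    ring
  set M : ℤ := s * (L * q * D) with hM
  have hMQ : M.natAbs = Q := by
    rw [← hQ, hM, Int.natAbs_mul, Int.natAbs_mul, Int.natAbs_mul, Int.natAbs_natCast,
      Int.natAbs_natCast, Int.natAbs_natCast]
    have : s.natAbs = 1 := by rcases hs with rfl | rfl <;> rfl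
    rw [this, one_mul]
  rw [fib (bx u v) I φ κ P h1 hI2, fib (bx u v) I φ κ P h1 hI2, Finset.mul_sum,
    ← Finset.sum_sub_distrib]
  refine (Finset.abs_sum_le_sum_abs _ _).trans ?_
  rw [← nsmul_eq_mul, ← Finset.sum_const]
  refine Finset.sum_le_sum fun i hi => ?_
  have hmem := mem_KK (bx u v) I φ κ P h1 h2 hi
  set K := KK (bx u v) φ κ i with hK
  set g : ℤ := s * (L * (q * i.1 + y * i.2) + r) with hg
  set c : ℤ := s * (L * (q * i.1 + y' * i.2) + r') with hc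
  have e1 : ∀ k, G s L q y r (P i k) = g + M * k := by
    intro k
    simp only [G, hP, hg, hM]
    ring
  have e2 : ∀ k, G s L q y' r' (P i k) = c + M * k := by
    intro k
    simp only [G, hP, hc, hM]
    ring
  simp_rw [e1, e2]
  have hcv : Cv K := cv_box u v i (D, 0) K hmem
  have hcv' : Cv (K.filter fun k => 0 < c + M * k) := by
    intro a ha b hb k hak hkb
    rw [mem_filter] at ha hb ⊢
    refine ⟨hcv a ha.1 b hb.1 k hak hkb, ?_⟩
    have := aff_lo (u := 1) (p := c) (e := M) (by linarith [ha.2]) (by linarith [hb.2]) hak hkb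
    linarith
  have h4 := hLN M hMQ g (K.filter fun k => 0 < c + M * k) hcv' (fun k hk => by
    rw [mem_filter] at hk
    have := hG _ ((hmem k).1 hk.1)
    rwa [e1] at this)
  by_cases hcop : IsCoprime c (Q : ℤ)
  · have f1 : ∑ k ∈ K, lam (g + M * k) * cp Q (c + M * k) =
        ∑ k ∈ K.filter (fun k => 0 < c + M * k), lam (g + M * k) := by
      rw [Finset.sum_filter]
      refine Finset.sum_congr rfl fun k _ => ?_
      unfold cp
      rw [if_pos ((cop_add Q M c k hMQ).2 hcop)]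
      unfold pos
      split_ifs <;> simp
    have f2 : ∑ k ∈ K, (if IsCoprime ((g + M * k) * (c + M * k)) (Q : ℤ) then
        pos (g + M * k) * pos (c + M * k) else 0) =
        ∑ k ∈ K.filter (fun k => 0 < c + M * k), cp Q (g + M * k) := by
      rw [Finset.sum_filter]
      refine Finset.sum_congr rfl fun k _ => ?_
      have f3 : IsCoprime ((g + M * k) * (c + M * k)) (Q : ℤ) ↔ IsCoprime (g + M * k) (Q : ℤ) := by
        rw [IsCoprime.mul_left_iff]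
        exact ⟨fun h => h.1, fun h => ⟨h, (cop_add Q M c k hMQ).2 hcop⟩⟩
      unfold cp
      by_cases h5 : IsCoprime (g + M * k) (Q : ℤ)
      · rw [if_pos (f3.2 h5), if_pos h5]
        by_cases h6 : 0 < c + M * k
        · rw [if_pos h6]
          have : pos (c + M * k) = 1 := if_pos h6
          rw [this, mul_one]
        · rw [if_neg h6]
          have : pos (c + M * k) = 0 := if_neg h6
          rw [this, mul_zero]
      · rw [if_neg (fun h => h5 (f3.1 h)), if_neg h5]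
        simp
    rw [f1, f2]
    exact h4
  · have f1 : ∑ k ∈ K, lam (g + M * k) * cp Q (c + M * k) = 0 := by
      refine Finset.sum_eq_zero fun k _ => ?_
      unfold cp
      rw [if_neg fun h' => hcop ((cop_add Q M c k hMQ).1 h'), mul_zero]
    have f2 : ∑ k ∈ K, (if IsCoprime ((g + M * k) * (c + M * k)) (Q : ℤ) then
        pos (g + M * k) * pos (c + M * k) else 0) = 0 := by
      refine Finset.sum_eq_zero fun k _ => ?_
      rw [if_neg]
      intro h'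
      rw [IsCoprime.mul_left_iff] at h'
      exact hcop ((cop_add Q M c k hMQ).1 h'.2)
    rw [f1, f2]
    simp
    exact hE

theorem abs_G_le {H : ℕ} {κ : ℕ} {s : ℤ} (hs : s = 1 ∨ s = -1) {L q : ℕ} {y r : ℤ}
    (hl : 1 ≤ Real.log H) (hL : (L : ℝ) ≤ Real.log H ^ κ) (hq : (q : ℝ) ≤ Real.log H ^ κ)
    (hy : |(y : ℝ)| ≤ Real.log H ^ κ) (hr : |(r : ℝ)| ≤ H * Real.log H ^ κ) {b : ℤ × ℤ}
    (h1 : |(b.1 : ℝ)| ≤ H) (h2 : |(b.2 : ℝ)| ≤ H) :
    |((G s L q y r b : ℤ) : ℝ)| ≤ 3 * H * Real.log H ^ (2 * κ) := by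
  have hH : (0:ℝ) ≤ H := Nat.cast_nonneg H
  have hp : 1 ≤ Real.log H ^ κ := one_le_pow₀ hl
  have e1 : |((G s L q y r b : ℤ) : ℝ)| = |(L : ℝ) * (q * b.1 + y * b.2) + r| := by
    unfold G
    push_cast
    rw [abs_mul]
    have : |(s : ℝ)| = 1 := by rcases hs with rfl | rfl <;> simp
    rw [this, one_mul]
  rw [e1]
  have h3 : |(q : ℝ) * b.1 + y * b.2| ≤ Real.log H ^ κ * H + Real.log H ^ κ * H := by
    refine (abs_add_le _ _).trans ?_
    rw [abs_mul, abs_mul, Nat.abs_cast]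
    exact add_le_add (mul_le_mul hq h1 (abs_nonneg _) (by positivity))
      (mul_le_mul hy h2 (abs_nonneg _) (by positivity))
  calc |(L : ℝ) * (q * b.1 + y * b.2) + r| ≤ |(L : ℝ) * (q * b.1 + y * b.2)| + |(r : ℝ)| :=
        abs_add_le _ _
    _ ≤ Real.log H ^ κ * (Real.log H ^ κ * H + Real.log H ^ κ * H) + H * Real.log H ^ κ := by
        refine add_le_add ?_ hr
        rw [abs_mul, Nat.abs_cast]
        exact mul_le_mul hL h3 (abs_nonneg _) (by positivity)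
    _ ≤ 3 * H * Real.log H ^ (2 * κ) := by
        rw [two_mul κ, pow_add]
        have : H * Real.log H ^ κ ≤ H * (Real.log H ^ κ * Real.log H ^ κ) :=
          mul_le_mul_of_nonneg_left (le_mul_of_one_le_left (by positivity) hp) hH
        nlinarith

theorem large (κ X₀ : ℕ) : ∃ H₀ : ℕ, ∀ H : ℕ, H₀ ≤ H → X₀ ≤ H ∧ 88 ≤ Real.log H ∧
    4 * Real.log H ^ (2 * κ) ≤ H := by
  have h1 : ∀ᶠ H : ℕ in Filter.atTop, (88 : ℝ) ≤ Real.log H :=
    (Real.tendsto_log_atTop.comp tendsto_natCast_atTop_atTop).eventually_ge_atTop 88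
  have h2 : ∀ᶠ x : ℝ in Filter.atTop, ‖Real.log x ^ (2 * κ)‖ ≤ 1 / 4 * ‖id x‖ :=
    (Real.isLittleO_pow_log_id_atTop (n := 2 * κ)).def (by norm_num)
  have h3 := tendsto_natCast_atTop_atTop (R := ℝ) |>.eventually h2
  have h4 := (Filter.eventually_ge_atTop X₀).and (h1.and h3)
  obtain ⟨H₀, h5⟩ := Filter.eventually_atTop.1 h4
  refine ⟨H₀, fun H hH => ?_⟩
  obtain ⟨h6, h7, h8⟩ := h5 H hH
  refine ⟨h6, h7, ?_⟩
  rw [Real.norm_of_nonneg (by positivity), id, Real.norm_of_nonneg (Nat.cast_nonneg H)] at h8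
  linarith

theorem rt_le (Q : ℕ) (hQ : 1 ≤ Q) : 0 ≤ rt Q ∧ rt Q ≤ Q := by
  unfold rt
  have h1 : 1 ≤ Nat.totient Q := Nat.totient_pos.2 hQ
  have h2 : (1:ℝ) ≤ (Nat.totient Q : ℝ) := by exact_mod_cast h1
  exact ⟨by positivity, div_le_self (Nat.cast_nonneg Q) h2⟩

open Classical in
theorem pair_ (h : S_LIN) : S_PAIR := by
  intro κ A
  obtain ⟨X₀, hX₀⟩ := linz h (3 * κ + 1) (A + 6 * κ + 2)
  obtain ⟨H₀, hH₀⟩ := large κ X₀
  refine ⟨H₀, fun H hH s L q y y' r r' hyp u v hbox => ?_⟩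
  obtain ⟨hHX, hlog, hH4⟩ := hH₀ H hH
  set ℓ : ℝ := Real.log H with hℓ
  have hℓ1 : 1 ≤ ℓ := by linarith
  have hℓ0 : 0 < ℓ := by linarith
  have hHr : (0:ℝ) ≤ H := Nat.cast_nonneg H
  have hH1 : (1:ℝ) ≤ H := by
    have : 1 ≤ ℓ ^ (2 * κ) := one_le_pow₀ hℓ1
    linarith
  set Δ : ℕ := (y - y').natAbs with hΔ
  have hΔ1 : 1 ≤ Δ := by
    have := hyp.ne
    omega
  set Q : ℕ := L * q * Δ with hQ
  have hL1 := hyp.hL
  have hq1 := hyp.hq
  have hQ1 : 1 ≤ Q := Nat.mul_pos (Nat.mul_pos hL1 hq1) hΔ1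
  have hΔr : (Δ : ℝ) ≤ 2 * ℓ ^ κ := by
    have e : (Δ : ℝ) = |(y : ℝ) - y'| := by
      rw [hΔ, Nat.cast_natAbs]
      push_cast
      rfl
    rw [e]
    have := abs_sub (y : ℝ) y'
    have h1 := hyp.hy
    have h2 := hyp.hy'
    linarith
  have hpκ : 1 ≤ ℓ ^ κ := one_le_pow₀ hℓ1
  have hQr : (Q : ℝ) ≤ 2 * ℓ ^ (3 * κ) := by
    have h1 : (Q : ℝ) = L * q * Δ := by rw [hQ]; push_cast; ring
    rw [h1]
    calc (L : ℝ) * q * Δ ≤ ℓ ^ κ * ℓ ^ κ * (2 * ℓ ^ κ) := by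
          have := hyp.hL'
          have := hyp.hq'
          gcongr
      _ = 2 * ℓ ^ (3 * κ) := by ring
  set X : ℕ := ⌈3 * (H:ℝ) * ℓ ^ (2 * κ)⌉₊ with hX
  have hXlo : 3 * (H:ℝ) * ℓ ^ (2 * κ) ≤ X := Nat.le_ceil _
  have hp2 : 1 ≤ ℓ ^ (2 * κ) := one_le_pow₀ hℓ1
  have hXhi : (X:ℝ) ≤ 4 * (H:ℝ) * ℓ ^ (2 * κ) := by
    have h1 : (X:ℝ) < 3 * (H:ℝ) * ℓ ^ (2 * κ) + 1 := Nat.ceil_lt_add_one (by positivity)
    nlinarith
  have hHXr : (H:ℝ) ≤ X := by nlinarith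
  have hHXn : H ≤ X := by exact_mod_cast hHXr
  have hX2 : (X:ℝ) ≤ H ^ 2 := by nlinarith
  have hlX1 : ℓ ≤ Real.log X := Real.log_le_log (by linarith) hHXr
  have hlX2 : Real.log X ≤ 2 * ℓ := by
    have h1 := Real.log_le_log (by linarith : (0:ℝ) < X) hX2
    rw [Real.log_pow] at h1
    exact_mod_cast h1
  set E : ℝ := X / Real.log X ^ (A + 6 * κ + 2) with hE
  have hE0 : 0 ≤ E := div_nn X _
  have hE1 : E ≤ 4 * (H:ℝ) * ℓ ^ (2 * κ) / ℓ ^ (A + 6 * κ + 2) := by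
    rw [hE]
    gcongr
  have hLN : LN X Q E := hX₀ X (hHX.trans hHXn) Q hQ1 (by
    calc (Q : ℝ) ≤ 2 * ℓ ^ (3 * κ) := hQr
      _ ≤ ℓ * ℓ ^ (3 * κ) := by
          have : 0 ≤ ℓ ^ (3 * κ) := by positivity
          nlinarith
      _ = ℓ ^ (3 * κ + 1) := by ring
      _ ≤ Real.log X ^ (3 * κ + 1) := pow_le_pow_left₀ hℓ0.le hlX1 _)
  obtain ⟨hu1, hu2, hv1, hu3, hu4, hv2⟩ := hbox
  have hb : ∀ b ∈ bx u v, -(H:ℤ) ≤ b.1 ∧ b.1 ≤ H ∧ -(H:ℤ) ≤ b.2 ∧ b.2 ≤ H := by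
    intro b hb
    unfold bx at hb
    rw [mem_product, mem_Icc, mem_Icc] at hb
    omega
  have hbr : ∀ b ∈ bx u v, |(b.1 : ℝ)| ≤ H ∧ |(b.2 : ℝ)| ≤ H := by
    intro b hb'
    obtain ⟨h1, h2, h3, h4⟩ := hb b hb'
    have h1' : (-(H:ℝ)) ≤ b.1 := by exact_mod_cast h1
    have h2' : (b.1:ℝ) ≤ H := by exact_mod_cast h2
    have h3' : (-(H:ℝ)) ≤ b.2 := by exact_mod_cast h3
    have h4' : (b.2:ℝ) ≤ H := by exact_mod_cast h4
    exact ⟨abs_le.2 ⟨h1', h2'⟩, abs_le.2 ⟨h3', h4'⟩⟩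
  have hG : ∀ b ∈ bx u v, |G s L q y r b| ≤ X := by
    intro b hb'
    have := (abs_G_le hyp.hs hℓ1 hyp.hL' hyp.hq' hyp.hy hyp.hr (hbr b hb').1 (hbr b hb').2).trans hXlo
    exact_mod_cast this
  have hG' : ∀ b ∈ bx u v, |G s L q y' r' b| ≤ X := by
    intro b hb'
    have := (abs_G_le hyp.hs hℓ1 hyp.hL' hyp.hq' hyp.hy' hyp.hr' (hbr b hb').1 (hbr b hb').2).trans hXlo
    exact_mod_cast this
  -- the index sets
  set I1 : Finset (ℤ × ℤ) := Icc (-((H:ℤ) + H * y.natAbs)) (H + H * y.natAbs) ×ˢ Ico 0 (q:ℤ) with hI1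
  set I2 : Finset (ℤ × ℤ) := Ico 0 (Δ:ℤ) ×ˢ Icc (-(H:ℤ)) H with hI2
  have hq0 : (0:ℤ) < q := by omega
  have hm1 : ∀ b ∈ bx u v, (b.1 + y * (b.2 / q), b.2 % q) ∈ I1 := by
    intro b hb'
    obtain ⟨h1, h2, h3, h4⟩ := hb b hb'
    rw [hI1, mem_product, mem_Icc, mem_Ico]
    have h5 : |b.2 / (q:ℤ)| ≤ H := by
      rw [abs_le]
      constructor
      · rw [Int.le_ediv_iff_mul_le hq0]
        have : -(H:ℤ) * q ≤ -(H:ℤ) * 1 := by
          apply mul_le_mul_of_nonpos_left <;> omega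
        linarith
      · apply Int.ediv_le_of_le_mul hq0
        have : (H:ℤ) * 1 ≤ H * q := by
          apply mul_le_mul_of_nonneg_left <;> omega
        linarith
    have h6 : |y * (b.2 / (q:ℤ))| ≤ H * y.natAbs := by
      rw [abs_mul, mul_comm, Int.natCast_natAbs]
      exact mul_le_mul_of_nonneg_right h5 (abs_nonneg _)
    rw [abs_le] at h6
    refine ⟨⟨?_, ?_⟩, Int.emod_nonneg _ hq0.ne', Int.emod_lt_of_pos _ hq0⟩
    · simp only
      linarith [h6.1]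
    · simp only
      linarith [h6.2]
  have hΔ0 : (0:ℤ) < Δ := by omega
  have hm2 : ∀ b ∈ bx u v, (b.1 % (Δ:ℤ), b.2) ∈ I2 := by
    intro b hb'
    obtain ⟨h1, h2, h3, h4⟩ := hb b hb'
    rw [hI2, mem_product, mem_Icc, mem_Ico]
    exact ⟨⟨Int.emod_nonneg _ hΔ0.ne', Int.emod_lt_of_pos _ hΔ0⟩, h3, h4⟩
  have k1 := step1 hLN hE0 s hyp.hs L q hq1 y y' r r' rfl u v hG hG' I1 (fun i hi => by
    rw [hI1, mem_product, mem_Ico] at hi
    exact hi.2) hm1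
  have k2 := step2 hLN hE0 s hyp.hs L q y y' r r' hyp.ne rfl u v hG I2 (fun i hi => by
    rw [hI2, mem_product, mem_Ico] at hi
    exact hi.1) hm2
  have c1 : (I1.card : ℝ) ≤ 5 * H * ℓ ^ κ * ℓ ^ κ := by
    have e1 : (I1.card : ℝ) = (2 * (H + H * y.natAbs) + 1) * q := by
      rw [hI1, card_product, Int.card_Icc, Int.card_Ico]
      have : ((H:ℤ) + H * y.natAbs + 1 - -((H:ℤ) + H * y.natAbs)).toNat =
          2 * (H + H * y.natAbs) + 1 := by
        have : ((H:ℤ) + H * y.natAbs + 1 - -((H:ℤ) + H * y.natAbs)) =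
          ((2 * (H + H * y.natAbs) + 1 : ℕ) : ℤ) := by
          push_cast
          ring
        rw [this, Int.toNat_natCast]
      rw [this]
      simp
    rw [e1]
    have h1 : (y.natAbs : ℝ) ≤ ℓ ^ κ := by
      rw [Nat.cast_natAbs]
      have := hyp.hy
      push_cast
      exact this
    have h2 := hyp.hq'
    calc (2 * ((H:ℝ) + H * y.natAbs) + 1) * q ≤ (2 * ((H:ℝ) + H * ℓ ^ κ) + 1) * ℓ ^ κ := by gcongr
      _ ≤ (5 * H * ℓ ^ κ) * ℓ ^ κ := by
          apply mul_le_mul_of_nonneg_right _ (by positivity)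
          nlinarith
  have c2 : (I2.card : ℝ) ≤ 6 * H * ℓ ^ κ := by
    have e1 : (I2.card : ℝ) = Δ * (2 * H + 1) := by
      rw [hI2, card_product, Int.card_Icc, Int.card_Ico]
      have : ((H:ℤ) + 1 - -(H:ℤ)).toNat = 2 * H + 1 := by omega
      rw [this]
      simp
    rw [e1]
    calc (Δ:ℝ) * (2 * H + 1) ≤ (2 * ℓ ^ κ) * (3 * H) := by
          apply mul_le_mul hΔr (by linarith) (by positivity) (by positivity)
      _ = _ := by ring
  obtain ⟨hr0, hr1⟩ := rt_le Q hQ1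
  set S1 := ∑ b ∈ bx u v, lam (G s L q y r b) * lam (G s L q y' r' b) with hS1
  set S2 := ∑ b ∈ bx u v, lam (G s L q y r b) * cp Q (G s L q y' r' b) with hS2
  set S3 := ∑ b ∈ bx u v, (if IsCoprime (G s L q y r b * G s L q y' r' b) (Q : ℤ) then
        pos (G s L q y r b) * pos (G s L q y' r' b) else 0) with hS3
  have hfin : |S1 - rt Q ^ 2 * S3| ≤ I1.card * (Real.log X * E) + rt Q * (I2.card * E) := by
    have e1 : S1 - rt Q ^ 2 * S3 = (S1 - rt Q * S2) + rt Q * (S2 - rt Q * S3) := by ring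
    rw [e1]
    refine (abs_add_le _ _).trans (add_le_add k1 ?_)
    rw [abs_mul, abs_of_nonneg hr0]
    exact mul_le_mul_of_nonneg_left k2 hr0
  refine hfin.trans ?_
  have hlX0 : 0 ≤ Real.log X := by linarith
  have hpow : ℓ ^ (A + 6 * κ + 2) = ℓ ^ A * (ℓ ^ κ) ^ 6 * ℓ ^ 2 := by ring
  have hp2' : ℓ ^ (2 * κ) = (ℓ ^ κ) ^ 2 := by ring
  have hp3' : ℓ ^ (3 * κ) = (ℓ ^ κ) ^ 3 := by ring
  rw [hp3'] at hQr
  rw [hpow, hp2'] at hE1
  set z := ℓ ^ κ with hz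
  have hz0 : 0 < z := by positivity
  calc (I1.card : ℝ) * (Real.log X * E) + rt Q * (I2.card * E)
      ≤ (5 * H * z * z) * ((2 * ℓ) * (4 * (H:ℝ) * z ^ 2 / (ℓ ^ A * z ^ 6 * ℓ ^ 2))) +
        (2 * z ^ 3) * ((6 * H * z) * (4 * (H:ℝ) * z ^ 2 / (ℓ ^ A * z ^ 6 * ℓ ^ 2))) := by
        have h5 : rt Q ≤ 2 * z ^ 3 := hr1.trans hQr
        gcongr
    _ = (H:ℝ) ^ 2 / ℓ ^ A * (40 / (z ^ 2 * ℓ) + 48 / ℓ ^ 2) := by
        field_simp
        ring
    _ ≤ (H:ℝ) ^ 2 / ℓ ^ A * 1 := by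
        apply mul_le_mul_of_nonneg_left _ (by positivity)
        have h6 : 40 / (z ^ 2 * ℓ) ≤ 40 / 88 := by
          apply div_le_div_of_nonneg_left (by norm_num) (by norm_num)
          have : 1 ≤ z ^ 2 := one_le_pow₀ hpκ
          nlinarith
        have h7 : 48 / ℓ ^ 2 ≤ 48 / 88 := by
          apply div_le_div_of_nonneg_left (by norm_num) (by norm_num)
          nlinarith
        norm_num at h6 h7 ⊢
        linarith
    _ = (H:ℝ) ^ 2 / ℓ ^ A := mul_one _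

end Pool.Agent.N707.DC
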